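import Mathlib
import Pool.Agent.R46.Dist
import Pool.Agent.R46.Geo

/-!
# Deleting a vertex can raise the outer mutual-visibility number from at most five to any value

The graph: a path `x = (0,0), (0,1), …, (0,4ⁿ)` and, for `i = 1, …, n`, a further path
`x, (i,1), …, (i,4ⁱ-1), (0,4ⁱ)` of length `4ⁱ`.
-/

namespace Pool.Agent.Results.MP_a310d2_co.UnboundedRatio

open SimpleGraph

/-- Two vertices `u, v` are `S`-visible: some shortest `u`-`v` path has no internal vertex in
`S`. -/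
def Visible {V : Type*} (G : SimpleGraph V) (S : Finset V) (u v : V) : Prop :=
  ∃ w : G.Walk u v, w.length = G.dist u v ∧ ∀ z ∈ w.support, z ≠ u → z ≠ v → z ∉ S

/-- `S` is an outer mutual-visibility set: every `u ∈ S` and every vertex `v` are `S`-visible. -/
def IsOuterMV {V : Type*} (G : SimpleGraph V) (S : Finset V) : Prop :=
  ∀ u ∈ S, ∀ v : V, Visible G S u v

/-- The outer mutual-visibility number of a finite graph: the largest size of an outer
mutual-visibility set. -/
noncomputable def muO {V : Type*} (G : SimpleGraph V) : ℕ :=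
  sSup {n | ∃ S : Finset V, IsOuterMV G S ∧ S.card = n}

/-- A walk entering `Z` uses `s` or `q` if these are the only vertices outside `Z` with
neighbours in `Z`. -/
theorem sep {V : Type*} {G : SimpleGraph V} (Z : V → Prop) {s q : V}
    (hZ : ∀ a b, Z a → ¬ Z b → G.Adj a b → b = s ∨ b = q) {u v : V} (w : G.Walk u v)
    (hu : ¬ Z u) (hv : Z v) : s ∈ w.support ∨ q ∈ w.support := by
  induction w with
  | nil => exact absurd hv hu
  | @cons a b c h p ih =>
    by_cases hb : Z b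
    · rcases hZ b a hb hu h.symm with rfl | rfl
      · exact Or.inl (by simp)
      · exact Or.inr (by simp)
    · rcases ih hb hv with h1 | h1
      · exact Or.inl (by simp [h1])
      · exact Or.inr (by simp [h1])

/-- The blocking criterion. -/
theorem blocked {V : Type*} {G : SimpleGraph V} {S : Finset V} (Z : V → Prop) {s q u v : V}
    (hZ : ∀ a b, Z a → ¬ Z b → G.Adj a b → b = s ∨ b = q) (hu : ¬ Z u) (hv : Z v)
    (hs : s ∈ S) (hsu : s ≠ u) (hsv : s ≠ v)
    (hd : G.dist u v < G.dist u q + G.dist q v) : ¬ Visible G S u v ∧ ¬ Visible G S v u := by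
  constructor
  · rintro ⟨w, hw, hS⟩
    rcases sep Z hZ w hu hv with h | h
    · exact hS s h hsu hsv hs
    · have := Pool.Agent.R46.geo_between hw h
      omega
  · rintro ⟨w, hw, hS⟩
    have hw' : w.reverse.length = G.dist u v := by
      rw [Walk.length_reverse, hw, SimpleGraph.dist_comm]
    rcases sep Z hZ w.reverse hu hv with h | h
    · exact hS s (by simpa using h) hsv hsu hs
    · have := Pool.Agent.R46.geo_between hw' h
      omega

/-- Vertices with a single neighbour are not internal vertices of shortest paths. -/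
theorem leaf_not_internal {V : Type*} {G : SimpleGraph V} {z y : V}
    (hz : ∀ a, G.Adj z a → a = y) {u v : V} (w : G.Walk u v) (hw : w.length = G.dist u v)
    (hzw : z ∈ w.support) : z = u ∨ z = v := by
  by_contra hcon
  push Not at hcon
  obtain ⟨k, hk, hk'⟩ := Walk.mem_support_iff_exists_getVert.1 hzw
  have hk0 : k ≠ 0 := by
    rintro rfl
    exact hcon.1 (by rw [← hk, Walk.getVert_zero])
  have hk1 : k ≠ w.length := by
    rintro rfl
    exact hcon.2 (by rw [← hk, Walk.getVert_length])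
  have h1 := w.adj_getVert_succ (i := k - 1) (by omega)
  have h2 := w.adj_getVert_succ (i := k) (by omega)
  rw [show k - 1 + 1 = k by omega, hk] at h1
  rw [hk] at h2
  have e1 := hz _ h1.symm
  have e2 := hz _ h2
  have d1 := (Pool.Agent.R46.geo_getVert hw (n := k - 1) (by omega)).1
  have d2 := (Pool.Agent.R46.geo_getVert hw (n := k + 1) (by omega)).1
  rw [e1] at d1
  rw [e2] at d2
  omega

/-- The vertices of the example. -/
def verts (n : ℕ) : Finset (ℕ × ℕ) :=
  (Finset.range (n + 1) ×ˢ Finset.range (4 ^ n + 1)).filter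
    (fun p => p = (0, 0) ∨ (1 ≤ p.2 ∧ (p.1 = 0 ∨ p.2 < 4 ^ p.1)))

theorem mem_verts {n : ℕ} {p : ℕ × ℕ} : p ∈ verts n ↔
    (p.1 ≤ n ∧ p.2 ≤ 4 ^ n) ∧ (p = (0, 0) ∨ (1 ≤ p.2 ∧ (p.1 = 0 ∨ p.2 < 4 ^ p.1))) := by
  simp only [verts, Finset.mem_filter, Finset.mem_product, Finset.mem_range]
  constructor
  · rintro ⟨⟨h1, h2⟩, h3⟩
    exact ⟨⟨by omega, by omega⟩, h3⟩
  · rintro ⟨⟨h1, h2⟩, h3⟩
    exact ⟨⟨by omega, by omega⟩, h3⟩

/-- The upward edges: `q` is one step further from `x` than `p`, and they are on the same strand,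
or `p = x`, or `p` is the last vertex of the strand `p.1` and `q` the vertex where it ends. -/
def Up (p q : ℕ × ℕ) : Prop :=
  q.2 = p.2 + 1 ∧ (p.1 = q.1 ∨ p.2 = 0 ∨ (q.1 = 0 ∧ q.2 = 4 ^ p.1))

/-- The example graph. -/
def Γ (n : ℕ) : SimpleGraph (verts n) where
  Adj p q := Up p.1 q.1 ∨ Up q.1 p.1
  symm := ⟨fun _ _ h => h.symm⟩
  loopless := ⟨fun p h => by
    rcases h with h | h <;> have := h.1 <;> omega⟩

/-- The hub. -/
def x (n : ℕ) : verts n := ⟨(0, 0), mem_verts.2 ⟨⟨by simp, by simp⟩, Or.inl rfl⟩⟩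

section

variable {n : ℕ}

theorem zero_of_height {p : verts n} (h : p.1.2 = 0) : p = x n := by
  have hp := mem_verts.1 p.2
  rcases hp.2 with h1 | h1
  · exact Subtype.ext h1
  · omega

theorem height_lip (v w : verts n) (h : (Γ n).Adj v w) : w.1.2 ≤ v.1.2 + 1 := by
  rcases h with h | h <;> have := h.1 <;> omega

theorem dist_lower (hc : (Γ n).Connected) (u v : verts n) :
    v.1.2 ≤ u.1.2 + (Γ n).dist u v := by
  obtain ⟨w, hw⟩ := hc.exists_walk_length_eq_dist u v
  have := Pool.Agent.R46.le_of_walk (G := Γ n) (d := fun v => v.1.2) height_lip w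
  omega

theorem down_nbr (v : verts n) (hv : v.1.2 ≠ 0) : ∃ w : verts n, (Γ n).Adj w v ∧
    w.1.2 + 1 = v.1.2 := by
  obtain ⟨⟨i, h⟩, hp⟩ := v
  have hp' : (i ≤ n ∧ h ≤ 4 ^ n) ∧ ((i, h) = (0, 0) ∨ (1 ≤ h ∧ (i = 0 ∨ h < 4 ^ i))) :=
    mem_verts.1 hp
  have hv : h ≠ 0 := hv
  by_cases h1 : h = 1
  · subst h1
    exact ⟨x n, Or.inl ⟨rfl, Or.inr (Or.inl rfl)⟩, rfl⟩
  · have h2 : 1 ≤ h ∧ (i = 0 ∨ h < 4 ^ i) := by
      rcases hp'.2 with h3 | h3
      · simp only [Prod.mk.injEq] at h3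
        omega
      · exact h3
    refine ⟨⟨(i, h - 1), mem_verts.2 ⟨⟨hp'.1.1, by simp only; omega⟩, Or.inr ⟨by simp only; omega,
      ?_⟩⟩⟩, Or.inl ⟨by simp only; omega, Or.inl rfl⟩, by simp only; omega⟩
    rcases h2.2 with h3 | h3
    · exact Or.inl h3
    · exact Or.inr (by simp only; omega)

theorem connected (n : ℕ) : (Γ n).Connected :=
  Pool.Agent.R46.connected_of (u := x n) (d := fun v => v.1.2) (fun _ h => zero_of_height h)
    (fun v hv => down_nbr v hv)

/-- The vertex at height `h` of strand `i`. -/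
def mk (i h : ℕ) (hp : (i, h) ∈ verts n) : verts n := ⟨(i, h), hp⟩

theorem mem_leg {i h : ℕ} (hi : i ≤ n) (h1 : 1 ≤ h) (h2 : h < 4 ^ i) : (i, h) ∈ verts n := by
  refine mem_verts.2 ⟨⟨hi, ?_⟩, Or.inr ⟨h1, Or.inr h2⟩⟩
  have : 4 ^ i ≤ 4 ^ n := Nat.pow_le_pow_right (by norm_num) hi
  simp only; omega

theorem mem_rim {h : ℕ} (h2 : h ≤ 4 ^ n) : (0, h) ∈ verts n := by
  rcases Nat.eq_zero_or_pos h with rfl | h1
  · exact mem_verts.2 ⟨⟨by simp, by simp⟩, Or.inl rfl⟩
  · exact mem_verts.2 ⟨⟨by simp, h2⟩, Or.inr ⟨h1, Or.inl rfl⟩⟩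

/-- Distances along a strand. -/
theorem dist_strand {i a k : ℕ} (ha : (i, a) ∈ verts n)
    (hk : ∀ j ≤ k, (i, a + j) ∈ verts n) :
    (Γ n).dist (mk i a ha) (mk i (a + k) (hk k le_rfl)) ≤ k := by
  induction k with
  | zero => simp [mk]
  | succ k ih =>
    have h1 := ih (fun j hj => hk j (by omega))
    have h2 : (Γ n).Adj (mk i (a + k) (hk k (by omega))) (mk i (a + (k + 1)) (hk (k + 1) le_rfl)) :=
      Or.inl ⟨rfl, Or.inl rfl⟩
    have h3 := (connected n).dist_triangle (u := mk i a ha) (v := mk i (a + k) (hk k (by omega)))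
      (w := mk i (a + (k + 1)) (hk (k + 1) le_rfl))
    rw [SimpleGraph.dist_eq_one_iff_adj.2 h2] at h3
    omega

theorem dist_rim {a b : ℕ} (hab : a ≤ b) (hb : b ≤ 4 ^ n) :
    (Γ n).dist (mk 0 a (mem_rim (hab.trans hb))) (mk 0 b (mem_rim hb)) ≤ b - a := by
  have := dist_strand (n := n) (i := 0) (a := a) (k := b - a) (mem_rim (hab.trans hb))
    (fun j hj => mem_rim (by omega))
  convert this using 3
  omega

/-- From a vertex of a strand down to the hub. -/
theorem dist_hub {i h : ℕ} (hi : i ≤ n) (h1 : 1 ≤ h) (h2 : h < 4 ^ i) :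
    (Γ n).dist (mk i h (mem_leg hi h1 h2)) (x n) ≤ h := by
  have e1 := dist_strand (n := n) (i := i) (a := 1) (k := h - 1)
    (mem_leg hi le_rfl (by omega)) (fun j hj => mem_leg hi (by omega) (by omega))
  have e2 : (Γ n).Adj (x n) (mk i 1 (mem_leg hi le_rfl (by omega))) :=
    Or.inl ⟨rfl, Or.inr (Or.inl rfl)⟩
  have e3 := (connected n).dist_triangle (u := x n) (v := mk i 1 (mem_leg hi le_rfl (by omega)))
    (w := mk i h (mem_leg hi h1 h2))
  rw [SimpleGraph.dist_eq_one_iff_adj.2 e2] at e3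
  have e4 : (Γ n).dist (mk i 1 (mem_leg hi le_rfl (by omega))) (mk i h (mem_leg hi h1 h2)) ≤
      h - 1 := by
    convert e1 using 3
    omega
  rw [SimpleGraph.dist_comm]
  omega

/-- From a vertex of a strand up to the rim. -/
theorem dist_top {i h : ℕ} (hi : i ≤ n) (h1 : 1 ≤ h) (h2 : h < 4 ^ i) :
    (Γ n).dist (mk i h (mem_leg hi h1 h2))
      (mk 0 (4 ^ i) (mem_rim (Nat.pow_le_pow_right (by norm_num) hi))) ≤ 4 ^ i - h := by
  have e1 := dist_strand (n := n) (i := i) (a := h) (k := 4 ^ i - 1 - h)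
    (mem_leg hi h1 h2) (fun j hj => mem_leg hi (by omega) (by omega))
  have e2 : (Γ n).Adj (mk i (4 ^ i - 1) (mem_leg hi (by omega) (by omega)))
      (mk 0 (4 ^ i) (mem_rim (Nat.pow_le_pow_right (by norm_num) hi))) :=
    Or.inl ⟨by simp only [mk]; omega, Or.inr (Or.inr ⟨rfl, rfl⟩)⟩
  have e3 := (connected n).dist_triangle (u := mk i h (mem_leg hi h1 h2))
    (v := mk i (4 ^ i - 1) (mem_leg hi (by omega) (by omega)))
    (w := mk 0 (4 ^ i) (mem_rim (Nat.pow_le_pow_right (by norm_num) hi)))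
  rw [SimpleGraph.dist_eq_one_iff_adj.2 e2] at e3
  have e4 : (Γ n).dist (mk i h (mem_leg hi h1 h2))
      (mk i (4 ^ i - 1) (mem_leg hi (by omega) (by omega))) ≤ 4 ^ i - 1 - h := by
    convert e1 using 3
    omega
  omega

/-- Three vertices of an outer mutual-visibility set on the rim are impossible. -/
theorem rim_three {S : Finset (verts n)} (hS : IsOuterMV (Γ n) S) {a b c : ℕ} (h1 : 1 ≤ a)
    (hab : a < b) (hbc : b < c) (hc : c ≤ 4 ^ n)
    (ha : mk 0 a (mem_rim (by omega)) ∈ S) (hb : mk 0 b (mem_rim (by omega)) ∈ S) : False := by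
  have hblk := blocked (G := Γ n) (S := S) (Z := fun p => (p.1.1 = 0 ∧ b < p.1.2) ∨
      (p.1.1 ≠ 0 ∧ b < 4 ^ p.1.1)) (s := mk 0 b (mem_rim (by omega))) (q := x n)
    (u := mk 0 a (mem_rim (by omega))) (v := mk 0 c (mem_rim hc)) ?_ ?_ ?_ hb ?_ ?_ ?_
  · exact hblk.1 (hS _ ha _)
  · rintro ⟨⟨i, h⟩, hp⟩ ⟨⟨i', h'⟩, hp'⟩ hZ hZ' hadj
    have hv' := mem_verts.1 hp'
    simp only [not_or, not_and, not_lt, Prod.mk.injEq] at hZ hZ' hv'
    by_cases h0 : h' = 0
    · exact Or.inr (zero_of_height h0)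
    · left
      rcases hadj with ⟨e1, e2⟩ | ⟨e1, e2⟩
      · simp only at e1 e2
        exfalso
        rcases hZ with ⟨rfl, h2⟩ | ⟨h2, h3⟩
        · rcases e2 with rfl | e2 | ⟨rfl, e2⟩
          · have := hZ'.1 rfl
            omega
          · omega
          · have := hZ'.1 rfl
            omega
        · rcases e2 with rfl | e2 | ⟨rfl, e2⟩
          · have := hZ'.2 h2
            omega
          · subst e2
            have hv := mem_verts.1 hp
            simp only [Prod.mk.injEq] at hv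
            omega
          · have := hZ'.1 rfl
            omega
      · simp only at e1 e2
        rcases hZ with ⟨rfl, h2⟩ | ⟨h2, h3⟩
        · rcases e2 with rfl | e2 | ⟨-, e2⟩
          · have := hZ'.1 rfl
            apply Subtype.ext
            simp only [mk, Prod.mk.injEq, true_and]
            omega
          · exact absurd e2 h0
          · by_cases hi : i' = 0
            · subst hi
              have := hZ'.1 rfl
              simp only [pow_zero] at e2
              omega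
            · have := hZ'.2 hi
              omega
        · rcases e2 with rfl | e2 | ⟨e2, -⟩
          · have := hZ'.2 h2
            omega
          · exact absurd e2 h0
          · exact absurd e2 h2
  · simp only [mk, true_and, ne_eq, not_true_eq_false, false_and, or_false]
    omega
  · simp only [mk, true_and, ne_eq, not_true_eq_false, false_and, or_false]
    omega
  · intro h
    have := congrArg (fun p : verts n => p.1.2) h
    simp only [mk] at this
    omega
  · intro h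
    have := congrArg (fun p : verts n => p.1.2) h
    simp only [mk] at this
    omega
  · have e1 := dist_rim (n := n) (a := a) (b := c) (by omega) hc
    have e2 := dist_lower (connected n) (x n) (mk 0 a (mem_rim (by omega)))
    have e3 := dist_lower (connected n) (x n) (mk 0 c (mem_rim hc))
    rw [SimpleGraph.dist_comm (v := mk 0 a (mem_rim (by omega)))] at e2
    simp only [mk, x] at e1 e2 e3 ⊢
    omega

/-- The boundary of the upper part of a strand. -/
theorem boundary_up {j m : ℕ} (hj : j ≤ n) (hj0 : j ≠ 0) (hm : 1 ≤ m) (hm' : m < 4 ^ j) :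
    ∀ a b : verts n, (a.1.1 = j ∧ m < a.1.2) → ¬ (b.1.1 = j ∧ m < b.1.2) → (Γ n).Adj a b →
      b = mk j m (mem_leg hj hm hm') ∨
      b = mk 0 (4 ^ j) (mem_rim (Nat.pow_le_pow_right (by norm_num) hj)) := by
  rintro ⟨⟨i, h⟩, hp⟩ ⟨⟨i', h'⟩, hp'⟩ hZ hZ' hadj
  simp only [not_and, not_lt] at hZ hZ'
  obtain ⟨rfl, hZ⟩ := hZ
  rcases hadj with ⟨e1, e2⟩ | ⟨e1, e2⟩
  · simp only at e1 e2
    rcases e2 with rfl | e2 | ⟨rfl, e2⟩
    · have := hZ' rfl
      omega
    · omega
    · right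
      apply Subtype.ext
      simp only [mk, Prod.mk.injEq, true_and]
      omega
  · simp only at e1 e2
    rcases e2 with rfl | e2 | ⟨e2, -⟩
    · left
      have := hZ' rfl
      apply Subtype.ext
      simp only [mk, Prod.mk.injEq, true_and]
      omega
    · omega
    · exact absurd e2 hj0

/-- The boundary of the lower part of a strand. -/
theorem boundary_down {j m : ℕ} (hj : j ≤ n) (hj0 : j ≠ 0) (hm : 1 ≤ m) (hm' : m < 4 ^ j) :
    ∀ a b : verts n, (a.1.1 = j ∧ a.1.2 < m) → ¬ (b.1.1 = j ∧ b.1.2 < m) → (Γ n).Adj a b →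
      b = mk j m (mem_leg hj hm hm') ∨ b = x n := by
  rintro ⟨⟨i, h⟩, hp⟩ ⟨⟨i', h'⟩, hp'⟩ hZ hZ' hadj
  simp only [not_and, not_lt] at hZ hZ'
  obtain ⟨rfl, hZ⟩ := hZ
  have hv := mem_verts.1 hp
  simp only [Prod.mk.injEq] at hv
  rcases hadj with ⟨e1, e2⟩ | ⟨e1, e2⟩
  · simp only at e1 e2
    rcases e2 with rfl | e2 | ⟨rfl, e2⟩
    · left
      have := hZ' rfl
      apply Subtype.ext
      simp only [mk, Prod.mk.injEq, true_and]
      omega
    · omega
    · omega
  · simp only at e1 e2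
    rcases e2 with rfl | e2 | ⟨e2, -⟩
    · have := hZ' rfl
      omega
    · right
      exact zero_of_height e2
    · exact absurd e2 hj0

/-- Two vertices of an outer mutual-visibility set on the same strand are impossible. -/
theorem leg_two {S : Finset (verts n)} (hS : IsOuterMV (Γ n) S) {j a b : ℕ} (hj : j ≤ n)
    (hj0 : j ≠ 0) (h1 : 1 ≤ a) (hab : a < b) (hb : b < 4 ^ j)
    (ha' : mk j a (mem_leg hj h1 (by omega)) ∈ S) (hb' : mk j b (mem_leg hj (by omega) hb) ∈ S) :
    False := by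
  have hblk := blocked (G := Γ n) (S := S) (Z := fun p => p.1.1 = j ∧ a < p.1.2)
    (s := mk j a (mem_leg hj h1 (by omega)))
    (q := mk 0 (4 ^ j) (mem_rim (Nat.pow_le_pow_right (by norm_num) hj)))
    (u := x n) (v := mk j b (mem_leg hj (by omega) hb))
    (boundary_up hj hj0 h1 (by omega)) ?_ ?_ ha' ?_ ?_ ?_
  · exact hblk.2 (hS _ hb' _)
  · simp only [x]; omega
  · simp only [mk, true_and]; omega
  · intro h
    have := congrArg (fun p : verts n => p.1.2) h
    simp only [mk, x] at this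
    omega
  · intro h
    have := congrArg (fun p : verts n => p.1.2) h
    simp only [mk] at this
    omega
  · have e1 := dist_hub hj (show 1 ≤ b by omega) hb
    rw [SimpleGraph.dist_comm] at e1
    have e2 := dist_lower (connected n) (x n)
      (mk 0 (4 ^ j) (mem_rim (Nat.pow_le_pow_right (by norm_num) hj)))
    simp only [mk, x] at e1 e2 ⊢
    omega

/-- The first constraint for two strands. -/
theorem legs_high {S : Finset (verts n)} (hS : IsOuterMV (Γ n) S) {i j a b : ℕ} (hj : j ≤ n)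
    (hij : i < j) (ha1 : 1 ≤ a) (ha2 : a < 4 ^ i) (hb1 : 1 ≤ b) (hb2 : b < 4 ^ j)
    (ha : mk i a (mem_leg (by omega) ha1 ha2) ∈ S) (hb : mk j b (mem_leg hj hb1 hb2) ∈ S) :
    4 ^ j ≤ b + 4 ^ i := by
  by_contra hlt
  push Not at hlt
  have hb3 : b + 1 < 4 ^ j := by omega
  have hblk := blocked (G := Γ n) (S := S) (Z := fun p => p.1.1 = j ∧ b < p.1.2)
    (s := mk j b (mem_leg hj hb1 hb2))
    (q := mk 0 (4 ^ j) (mem_rim (Nat.pow_le_pow_right (by norm_num) hj)))
    (u := mk i a (mem_leg (by omega) ha1 ha2)) (v := mk j (b + 1) (mem_leg hj (by omega) hb3))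
    (boundary_up hj (by omega) hb1 hb2) ?_ ?_ hb ?_ ?_ ?_
  · exact hblk.1 (hS _ ha _)
  · simp only [mk]; omega
  · simp only [mk, true_and]; omega
  · intro h
    have := congrArg (fun p : verts n => p.1.1) h
    simp only [mk] at this
    omega
  · intro h
    have := congrArg (fun p : verts n => p.1.2) h
    simp only [mk] at this
    omega
  · have e1 := dist_hub (n := n) (i := i) (by omega) ha1 ha2
    have e2 := dist_hub hj (show 1 ≤ b + 1 by omega) hb3
    rw [SimpleGraph.dist_comm] at e2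
    have e3 := (connected n).dist_triangle (u := mk i a (mem_leg (by omega) ha1 ha2)) (v := x n)
      (w := mk j (b + 1) (mem_leg hj (by omega) hb3))
    have e4 := dist_lower (connected n) (mk i a (mem_leg (by omega) ha1 ha2))
      (mk 0 (4 ^ j) (mem_rim (Nat.pow_le_pow_right (by norm_num) hj)))
    have e5 := dist_lower (connected n) (mk j (b + 1) (mem_leg hj (by omega) hb3))
      (mk 0 (4 ^ j) (mem_rim (Nat.pow_le_pow_right (by norm_num) hj)))
    rw [SimpleGraph.dist_comm] at e5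
    simp only [mk, x] at e1 e2 e3 e4 e5 ⊢
    omega

/-- Three strands with vertices of an outer mutual-visibility set are impossible. -/
theorem legs_three {S : Finset (verts n)} (hS : IsOuterMV (Γ n) S) {i j k a b c : ℕ}
    (hk : k ≤ n) (hij : i < j) (hjk : j < k) (ha1 : 1 ≤ a) (ha2 : a < 4 ^ i) (hb1 : 1 ≤ b)
    (hb2 : b < 4 ^ j) (hc1 : 1 ≤ c) (hc2 : c < 4 ^ k)
    (ha : mk i a (mem_leg (by omega) ha1 ha2) ∈ S)
    (hb : mk j b (mem_leg (by omega) hb1 hb2) ∈ S) (hc : mk k c (mem_leg hk hc1 hc2) ∈ S) :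
    False := by
  have h1 := legs_high hS (by omega) hij ha1 ha2 hb1 hb2 ha hb
  have h2 := legs_high hS hk (by omega) ha1 ha2 hc1 hc2 ha hc
  have h3 : 4 * 4 ^ i ≤ 4 ^ j := by
    rw [← pow_succ']
    exact Nat.pow_le_pow_right (by norm_num) hij
  have h4 : 4 * 4 ^ j ≤ 4 ^ k := by
    rw [← pow_succ']
    exact Nat.pow_le_pow_right (by norm_num) hjk
  have h5 : 1 ≤ 4 ^ i := Nat.one_le_pow _ _ (by norm_num)
  have hc3 : 1 ≤ c - 1 := by omega
  have hblk := blocked (G := Γ n) (S := S) (Z := fun p => p.1.1 = k ∧ p.1.2 < c)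
    (s := mk k c (mem_leg hk hc1 hc2)) (q := x n)
    (u := mk j b (mem_leg (by omega) hb1 hb2)) (v := mk k (c - 1) (mem_leg hk hc3 (by omega)))
    (boundary_down hk (by omega) hc1 hc2) ?_ ?_ hc ?_ ?_ ?_
  · exact hblk.1 (hS _ hb _)
  · simp only [mk]; omega
  · simp only [mk, true_and]; omega
  · intro h
    have := congrArg (fun p : verts n => p.1.1) h
    simp only [mk] at this
    omega
  · intro h
    have := congrArg (fun p : verts n => p.1.2) h
    simp only [mk] at this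
    omega
  · have e1 := dist_top (n := n) (i := j) (by omega) hb1 hb2
    have e2 := dist_rim (n := n) (a := 4 ^ j) (b := 4 ^ k)
      (Nat.pow_le_pow_right (by norm_num) hjk.le) (Nat.pow_le_pow_right (by norm_num) hk)
    have e3 := dist_top hk hc3 (show c - 1 < 4 ^ k by omega)
    rw [SimpleGraph.dist_comm] at e3
    have e4 := (connected n).dist_triangle (u := mk j b (mem_leg (by omega) hb1 hb2))
      (v := mk 0 (4 ^ j) (mem_rim (Nat.pow_le_pow_right (by norm_num) (by omega))))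
      (w := mk 0 (4 ^ k) (mem_rim (Nat.pow_le_pow_right (by norm_num) hk)))
    have e5 := (connected n).dist_triangle (u := mk j b (mem_leg (by omega) hb1 hb2))
      (v := mk 0 (4 ^ k) (mem_rim (Nat.pow_le_pow_right (by norm_num) hk)))
      (w := mk k (c - 1) (mem_leg hk hc3 (by omega)))
    have e6 := dist_lower (connected n) (x n) (mk j b (mem_leg (by omega) hb1 hb2))
    rw [SimpleGraph.dist_comm] at e6
    have e7 := dist_lower (connected n) (x n) (mk k (c - 1) (mem_leg hk hc3 (by omega)))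
    simp only [mk, x] at e1 e2 e3 e4 e5 e6 e7 ⊢
    omega

/-- Every outer mutual-visibility set has at most five elements. -/
theorem card_le {S : Finset (verts n)} (hS : IsOuterMV (Γ n) S) : S.card ≤ 5 := by
  classical
  set A := S.filter (fun p => p.1.2 = 0) with hA
  set B := S.filter (fun p => p.1.2 ≠ 0 ∧ p.1.1 = 0) with hB
  set C := S.filter (fun p => p.1.2 ≠ 0 ∧ p.1.1 ≠ 0) with hC
  have hcover : S ⊆ A ∪ B ∪ C := by
    intro p hp
    simp only [hA, hB, hC, Finset.mem_union, Finset.mem_filter]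
    tauto
  have hAc : A.card ≤ 1 := by
    rw [Finset.card_le_one]
    intro p hp q hq
    rw [hA, Finset.mem_filter] at hp hq
    rw [zero_of_height hp.2, zero_of_height hq.2]
  have hBc : B.card ≤ 2 := by
    by_contra hlt
    push Not at hlt
    obtain ⟨p, q, r, hp, hq, hr, hpq, hpr, hqr⟩ := Finset.two_lt_card_iff.1 hlt
    rw [hB, Finset.mem_filter] at hp hq hr
    obtain ⟨⟨⟨i1, a⟩, ha⟩, hp⟩ : ∃ z : verts n, z ∈ S ∧ z.1.2 ≠ 0 ∧ z.1.1 = 0 ∧ z = p :=
      ⟨p, hp.1, hp.2.1, hp.2.2, rfl⟩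
    obtain ⟨⟨⟨i2, b⟩, hb⟩, hq⟩ : ∃ z : verts n, z ∈ S ∧ z.1.2 ≠ 0 ∧ z.1.1 = 0 ∧ z = q :=
      ⟨q, hq.1, hq.2.1, hq.2.2, rfl⟩
    obtain ⟨⟨⟨i3, c⟩, hc⟩, hr⟩ : ∃ z : verts n, z ∈ S ∧ z.1.2 ≠ 0 ∧ z.1.1 = 0 ∧ z = r :=
      ⟨r, hr.1, hr.2.1, hr.2.2, rfl⟩
    obtain ⟨hp1, hp2, hp3, rfl⟩ := hp
    obtain ⟨hq1, hq2, hq3, rfl⟩ := hq
    obtain ⟨hr1, hr2, hr3, rfl⟩ := hr
    simp only at hp2 hp3 hq2 hq3 hr2 hr3
    subst hp3 hq3 hr3
    have hab : a ≠ b := by rintro rfl; exact hpq rfl
    have hac : a ≠ c := by rintro rfl; exact hpr rfl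
    have hbc : b ≠ c := by rintro rfl; exact hqr rfl
    have va := (mem_verts.1 ha).1.2
    have vb := (mem_verts.1 hb).1.2
    have vc := (mem_verts.1 hc).1.2
    simp only at va vb vc
    rcases lt_or_gt_of_ne hab with h1 | h1 <;> rcases lt_or_gt_of_ne hac with h2 | h2 <;>
      rcases lt_or_gt_of_ne hbc with h3 | h3
    · exact rim_three hS (by omega) h1 h3 vc hp1 hq1
    · exact rim_three hS (by omega) h2 h3 vb hp1 hr1
    · omega
    · exact rim_three hS (by omega) h2 h1 vb hr1 hp1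
    · exact rim_three hS (by omega) h1 h2 vc hq1 hp1
    · omega
    · exact rim_three hS (by omega) h3 h2 va hq1 hr1
    · exact rim_three hS (by omega) h3 h1 va hr1 hq1
  have hCc : C.card ≤ 2 := by
    by_contra hlt
    push Not at hlt
    obtain ⟨p, q, r, hp, hq, hr, hpq, hpr, hqr⟩ := Finset.two_lt_card_iff.1 hlt
    rw [hC, Finset.mem_filter] at hp hq hr
    obtain ⟨⟨⟨i, a⟩, ha⟩, hp⟩ : ∃ z : verts n, z ∈ S ∧ z.1.2 ≠ 0 ∧ z.1.1 ≠ 0 ∧ z = p :=
      ⟨p, hp.1, hp.2.1, hp.2.2, rfl⟩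
    obtain ⟨⟨⟨j, b⟩, hb⟩, hq⟩ : ∃ z : verts n, z ∈ S ∧ z.1.2 ≠ 0 ∧ z.1.1 ≠ 0 ∧ z = q :=
      ⟨q, hq.1, hq.2.1, hq.2.2, rfl⟩
    obtain ⟨⟨⟨k, c⟩, hc⟩, hr⟩ : ∃ z : verts n, z ∈ S ∧ z.1.2 ≠ 0 ∧ z.1.1 ≠ 0 ∧ z = r :=
      ⟨r, hr.1, hr.2.1, hr.2.2, rfl⟩
    obtain ⟨hp1, hp2, hp3, rfl⟩ := hp
    obtain ⟨hq1, hq2, hq3, rfl⟩ := hq
    obtain ⟨hr1, hr2, hr3, rfl⟩ := hr
    simp only at hp2 hp3 hq2 hq3 hr2 hr3
    have va := mem_verts.1 ha
    have vb := mem_verts.1 hb
    have vc := mem_verts.1 hc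
    simp only [Prod.mk.injEq, hp3, hq3, hr3, false_and, false_or] at va vb vc
    -- two elements on the same strand are impossible
    have same : ∀ {j a b : ℕ} (ha : (j, a) ∈ verts n) (hb : (j, b) ∈ verts n), j ≠ 0 → a ≠ b →
        (⟨(j, a), ha⟩ : verts n) ∈ S → (⟨(j, b), hb⟩ : verts n) ∈ S → False := by
      intro j a b ha hb hj0 hab h1 h2
      have va := mem_verts.1 ha
      have vb := mem_verts.1 hb
      simp only [Prod.mk.injEq, hj0, false_and, false_or] at va vb
      rcases lt_or_gt_of_ne hab with h | h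
      · exact leg_two hS va.1.1 hj0 va.2.1 h vb.2.2 h1 h2
      · exact leg_two hS va.1.1 hj0 vb.2.1 h va.2.2 h2 h1
    have hij : i ≠ j := by
      rintro rfl
      exact same ha hb hp3 (by rintro rfl; exact hpq rfl) hp1 hq1
    have hik : i ≠ k := by
      rintro rfl
      exact same ha hc hp3 (by rintro rfl; exact hpr rfl) hp1 hr1
    have hjk : j ≠ k := by
      rintro rfl
      exact same hb hc hq3 (by rintro rfl; exact hqr rfl) hq1 hr1
    rcases lt_or_gt_of_ne hij with h1 | h1 <;> rcases lt_or_gt_of_ne hik with h2 | h2 <;>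
      rcases lt_or_gt_of_ne hjk with h3 | h3
    · exact legs_three hS vc.1.1 h1 h3 va.2.1 va.2.2 vb.2.1 vb.2.2 vc.2.1 vc.2.2 hp1 hq1 hr1
    · exact legs_three hS vb.1.1 h2 h3 va.2.1 va.2.2 vc.2.1 vc.2.2 vb.2.1 vb.2.2 hp1 hr1 hq1
    · omega
    · exact legs_three hS vb.1.1 h2 h1 vc.2.1 vc.2.2 va.2.1 va.2.2 vb.2.1 vb.2.2 hr1 hp1 hq1
    · exact legs_three hS vc.1.1 h1 h2 vb.2.1 vb.2.2 va.2.1 va.2.2 vc.2.1 vc.2.2 hq1 hp1 hr1
    · omega
    · exact legs_three hS va.1.1 h3 h2 vb.2.1 vb.2.2 vc.2.1 vc.2.2 va.2.1 va.2.2 hq1 hr1 hp1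
    · exact legs_three hS va.1.1 h3 h1 vc.2.1 vc.2.2 vb.2.1 vb.2.2 va.2.1 va.2.2 hr1 hq1 hp1
  have h1 := Finset.card_le_card hcover
  have h2 := Finset.card_union_le (A ∪ B) C
  have h3 := Finset.card_union_le A B
  omega

/-- The graph without the hub. -/
abbrev Γ' (n : ℕ) : SimpleGraph {v : verts n // v ∈ {v : verts n | v ≠ x n}} :=
  (Γ n).induce {v : verts n | v ≠ x n}

theorem one_le (i : ℕ) (hi : i ≠ 0) : 4 ≤ 4 ^ i := by
  calc 4 = 4 ^ 1 := by norm_num
    _ ≤ 4 ^ i := Nat.pow_le_pow_right (by norm_num) (Nat.one_le_iff_ne_zero.2 hi)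

theorem mem_low {i h : ℕ} (hn : n ≠ 0) (hi : i ≤ n) (h1 : 1 ≤ h) (h2 : h ≤ 3) :
    (i, h) ∈ verts n := by
  rcases eq_or_ne i 0 with rfl | hi0
  · exact mem_rim (by have := one_le n hn; omega)
  · exact mem_leg hi h1 (by have := one_le i hi0; omega)

theorem connected' (hn : n ≠ 0) : (Γ' n).Connected := by
  have htop : mk 0 (4 ^ n) (mem_rim le_rfl) ≠ x n := by
    intro h
    have := congrArg (fun p : verts n => p.1.2) h
    simp only [mk, x] at this
    have := one_le n hn
    omega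
  refine Pool.Agent.R46.connected_of
    (u := (⟨mk 0 (4 ^ n) (mem_rim le_rfl), htop⟩ : {v : verts n // v ∈ {v : verts n | v ≠ x n}}))
    (d := fun v => 4 ^ n - v.1.1.2) ?_ ?_
  · rintro ⟨⟨⟨i, h⟩, hp⟩, hne⟩ h0
    simp only at h0
    have hp' : (i ≤ n ∧ h ≤ 4 ^ n) ∧ ((i, h) = (0, 0) ∨ (1 ≤ h ∧ (i = 0 ∨ h < 4 ^ i))) :=
      mem_verts.1 hp
    have h4 := one_le n hn
    have hh : h = 4 ^ n := by omega
    have hi0 : i = 0 := by
      rcases hp'.2 with h1 | h1
      · simp only [Prod.mk.injEq] at h1; exact h1.1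
      · rcases h1.2 with h2 | h2
        · exact h2
        · have := Nat.pow_le_pow_right (show 0 < 4 by norm_num) hp'.1.1
          omega
    subst hi0 hh
    rfl
  · rintro ⟨⟨⟨i, h⟩, hp⟩, hne⟩ h0
    simp only at h0
    have hp' : (i ≤ n ∧ h ≤ 4 ^ n) ∧ ((i, h) = (0, 0) ∨ (1 ≤ h ∧ (i = 0 ∨ h < 4 ^ i))) :=
      mem_verts.1 hp
    have hv : 1 ≤ h ∧ (i = 0 ∨ h < 4 ^ i) := by
      rcases hp'.2 with h1 | h1
      · exact absurd (Subtype.ext h1) hne
      · exact h1
    have hnx : ∀ (j : ℕ) (hj : (j, h + 1) ∈ verts n), (⟨(j, h + 1), hj⟩ : verts n) ≠ x n := by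
      intro j hj h
      have := congrArg (fun p : verts n => p.1.2) h
      simp only [x] at this
      omega
    by_cases hi : i = 0
    · subst hi
      refine ⟨⟨⟨(0, h + 1), mem_rim (by omega)⟩, hnx _ _⟩, ?_, ?_⟩
      · exact Or.inr ⟨rfl, Or.inl rfl⟩
      · simp only; omega
    · have h1 : h < 4 ^ i := by
        rcases hv.2 with h1 | h1
        · exact absurd h1 hi
        · exact h1
      have h2 := Nat.pow_le_pow_right (show 0 < 4 by norm_num) hp'.1.1
      by_cases h3 : h + 1 < 4 ^ i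
      · refine ⟨⟨⟨(i, h + 1), mem_leg hp'.1.1 (by omega) h3⟩, hnx _ _⟩, ?_, ?_⟩
        · exact Or.inr ⟨rfl, Or.inl rfl⟩
        · simp only; omega
      · refine ⟨⟨⟨(0, h + 1), mem_rim (by omega)⟩, hnx _ _⟩, ?_, ?_⟩
        · exact Or.inr ⟨rfl, Or.inr (Or.inr ⟨rfl, show h + 1 = 4 ^ i by omega⟩)⟩
        · simp only; omega

/-- The leaves of the graph without the hub. -/
def leaf (hn : n ≠ 0) (i : Fin (n + 1)) : {v : verts n // v ∈ {v : verts n | v ≠ x n}} :=
  ⟨mk i.val 1 (mem_low hn (by omega) le_rfl (by norm_num)), by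
    intro h
    have := congrArg (fun p : verts n => p.1.2) h
    simp only [mk, x] at this
    omega⟩

theorem leaf_nbr (hn : n ≠ 0) (i : Fin (n + 1)) :
    ∃ y, ∀ a, (Γ' n).Adj (leaf hn i) a → a = y := by
  refine ⟨⟨mk i.val 2 (mem_low hn (by omega) (by norm_num) (by norm_num)), ?_⟩, ?_⟩
  · intro h
    have := congrArg (fun p : verts n => p.1.2) h
    simp only [mk, x] at this
    omega
  · rintro ⟨⟨⟨j, h⟩, hp⟩, hne⟩ hadj
    have hadj' : Up (i.val, 1) (j, h) ∨ Up (j, h) (i.val, 1) := hadj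
    rcases hadj' with ⟨e1, e2⟩ | ⟨e1, e2⟩
    · simp only at e1 e2
      apply Subtype.ext
      apply Subtype.ext
      rcases e2 with e2 | e2 | ⟨e2, e3⟩
      · simp only [mk, Prod.mk.injEq]
        exact ⟨e2.symm, by omega⟩
      · omega
      · exfalso
        by_cases hi : i.val = 0
        · rw [hi] at e3
          simp only [pow_zero] at e3
          omega
        · have := one_le _ hi
          omega
    · simp only at e1
      exact absurd (zero_of_height (p := ⟨(j, h), hp⟩) (by simp only; omega)) hne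

theorem lower (hn : n ≠ 0) : n + 1 ≤ muO (Γ' n) := by
  classical
  have hinj : Function.Injective (leaf (n := n) hn) := by
    intro i j h
    have := congrArg (fun p : {v : verts n // v ∈ {v : verts n | v ≠ x n}} => p.1.1.1) h
    exact Fin.ext this
  apply le_csSup
  · refine ⟨Nat.card {v : verts n // v ∈ {v : verts n | v ≠ x n}}, ?_⟩
    rintro m ⟨S, -, rfl⟩
    have := Fintype.ofFinite {v : verts n // v ∈ {v : verts n | v ≠ x n}}
    rw [Nat.card_eq_fintype_card]
    exact Finset.card_le_univ S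
  · refine ⟨Finset.univ.image (leaf hn), ?_, ?_⟩
    · intro u hu v
      obtain ⟨w, hw⟩ := (connected' hn).exists_walk_length_eq_dist u v
      refine ⟨w, hw, ?_⟩
      intro z hz hzu hzv hzS
      obtain ⟨i, -, rfl⟩ := Finset.mem_image.1 hzS
      obtain ⟨y, hy⟩ := leaf_nbr hn i
      rcases leaf_not_internal hy w hw hz with h | h
      · exact hzu h
      · exact hzv h
    · rw [Finset.card_image_of_injective _ hinj]
      simp

theorem upper : muO (Γ n) ≤ 5 := by
  apply csSup_le'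
  rintro m ⟨S, hS, rfl⟩
  exact card_le hS

end

/-- **Main result.** For every `n` there are a finite connected graph `G` and a vertex `x` of `G`
such that `G - x` is connected, `μₒ(G) ≤ 5` and `μₒ(G - x) ≥ n`. -/
theorem result : ∀ n : ℕ, ∃ (V : Type) (_ : Finite V) (G : SimpleGraph V) (x : V),
    G.Connected ∧ (G.induce {v | v ≠ x}).Connected ∧ muO G ≤ 5 ∧
      n ≤ muO (G.induce {v | v ≠ x}) := by
  intro n
  refine ⟨verts (n + 1), inferInstance, Γ (n + 1), x (n + 1), connected _, connected' (by omega),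
    upper, ?_⟩
  have := lower (n := n + 1) (by omega)
  unfold Γ' at this
  omega

end Pool.Agent.Results.MP_a310d2_co.UnboundedRatio
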